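import Pool.Agent.Lib.MP_d99f1b_co.Data

namespace Pool.Agent.Lib.MP_d99f1b_co

theorem pair_check :
    (List.range 66).all (fun e => (List.range 66).all fun f => pairOK e f (ed e) (ed f)) = true := by
  decide +kernel

end Pool.Agent.Lib.MP_d99f1b_co
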