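import Mathlib

/-!
Integer data of the drawing and the Boolean checks run on it.
-/

namespace Pool.Agent.Lib.MP_d99f1b_co

/-- Edge data: ends, four polyline points, crossing edges. -/
structure ED where
  u : ℕ
  v : ℕ
  p0 : ℤ × ℤ
  p1 : ℤ × ℤ
  p2 : ℤ × ℤ
  p3 : ℤ × ℤ
  nb : List ℕ

def posL : List (ℤ × ℤ) :=
  [(250, 40), (250, -40), (0, 10), (0, 0), (0, -10), (100, 0), (200, 10), (200, 0), (200, -10), (300, 0), (400, 10), (400, 0), (400, -10), (500, 0)]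

def edgeL : List ED :=
  [⟨0, 2, (250, 40), (0, 20), (0, 15), (0, 10), []⟩,
   ⟨2, 3, (0, 10), (0, 7), (0, 3), (0, 0), []⟩,
   ⟨3, 4, (0, 0), (0, -3), (0, -7), (0, -10), []⟩,
   ⟨4, 1, (0, -10), (0, -15), (0, -20), (250, -40), []⟩,
   ⟨0, 5, (250, 40), (100, 20), (100, 10), (100, 0), []⟩,
   ⟨5, 1, (100, 0), (100, -10), (100, -20), (250, -40), []⟩,
   ⟨0, 6, (250, 40), (200, 20), (200, 15), (200, 10), []⟩,
   ⟨6, 7, (200, 10), (200, 7), (200, 3), (200, 0), []⟩,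
   ⟨7, 8, (200, 0), (200, -3), (200, -7), (200, -10), []⟩,
   ⟨8, 1, (200, -10), (200, -15), (200, -20), (250, -40), []⟩,
   ⟨0, 9, (250, 40), (300, 20), (300, 10), (300, 0), []⟩,
   ⟨9, 1, (300, 0), (300, -10), (300, -20), (250, -40), []⟩,
   ⟨0, 10, (250, 40), (400, 20), (400, 15), (400, 10), []⟩,
   ⟨10, 11, (400, 10), (400, 7), (400, 3), (400, 0), []⟩,
   ⟨11, 12, (400, 0), (400, -3), (400, -7), (400, -10), []⟩,
   ⟨12, 1, (400, -10), (400, -15), (400, -20), (250, -40), []⟩,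
   ⟨0, 13, (250, 40), (500, 20), (500, 10), (500, 0), []⟩,
   ⟨13, 1, (500, 0), (500, -10), (500, -20), (250, -40), []⟩,
   ⟨0, 1, (250, 40), (560, 20), (560, -20), (250, -40), [24, 25]⟩,
   ⟨0, 3, (250, 40), (-12, 20), (-9, 15), (0, 0), [22, 23, 24]⟩,
   ⟨3, 1, (0, 0), (-9, -15), (-12, -20), (250, -40), [21, 23, 25]⟩,
   ⟨0, 4, (250, 40), (-30, 20), (-25, 15), (0, -10), [20, 22, 24]⟩,
   ⟨2, 1, (0, 10), (-25, -15), (-30, -20), (250, -40), [19, 21, 25]⟩,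
   ⟨2, 4, (0, 10), (-1, 8), (-5, 0), (0, -10), [19, 20]⟩,
   ⟨13, 2, (500, 0), (750, 50), (-250, 50), (0, 10), [18, 19, 21]⟩,
   ⟨13, 4, (500, 0), (750, -50), (-250, -50), (0, -10), [18, 20, 22]⟩,
   ⟨0, 1, (250, 40), (60, 20), (60, -20), (250, -40), [32, 33]⟩,
   ⟨0, 3, (250, 40), (12, 20), (9, 15), (0, 0), [30, 31, 32]⟩,
   ⟨3, 1, (0, 0), (9, -15), (12, -20), (250, -40), [29, 31, 33]⟩,
   ⟨0, 4, (250, 40), (30, 20), (25, 15), (0, -10), [28, 30, 32]⟩,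
   ⟨2, 1, (0, 10), (25, -15), (30, -20), (250, -40), [27, 29, 33]⟩,
   ⟨2, 4, (0, 10), (1, 8), (5, 0), (0, -10), [27, 28]⟩,
   ⟨5, 2, (100, 0), (90, 1), (80, 2), (0, 10), [26, 27, 29]⟩,
   ⟨5, 4, (100, 0), (90, -1), (80, -2), (0, -10), [26, 28, 30]⟩,
   ⟨0, 1, (250, 40), (140, 20), (140, -20), (250, -40), [40, 41]⟩,
   ⟨0, 7, (250, 40), (188, 20), (191, 15), (200, 0), [38, 39, 40]⟩,
   ⟨7, 1, (200, 0), (191, -15), (188, -20), (250, -40), [37, 39, 41]⟩,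
   ⟨0, 8, (250, 40), (170, 20), (175, 15), (200, -10), [36, 38, 40]⟩,
   ⟨6, 1, (200, 10), (175, -15), (170, -20), (250, -40), [35, 37, 41]⟩,
   ⟨6, 8, (200, 10), (199, 8), (195, 0), (200, -10), [35, 36]⟩,
   ⟨5, 6, (100, 0), (110, 1), (120, 2), (200, 10), [34, 35, 37]⟩,
   ⟨5, 8, (100, 0), (110, -1), (120, -2), (200, -10), [34, 36, 38]⟩,
   ⟨0, 1, (250, 40), (260, 20), (260, -20), (250, -40), [48, 49]⟩,
   ⟨0, 7, (250, 40), (212, 20), (209, 15), (200, 0), [46, 47, 48]⟩,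
   ⟨7, 1, (200, 0), (209, -15), (212, -20), (250, -40), [45, 47, 49]⟩,
   ⟨0, 8, (250, 40), (230, 20), (225, 15), (200, -10), [44, 46, 48]⟩,
   ⟨6, 1, (200, 10), (225, -15), (230, -20), (250, -40), [43, 45, 49]⟩,
   ⟨6, 8, (200, 10), (201, 8), (205, 0), (200, -10), [43, 44]⟩,
   ⟨9, 6, (300, 0), (290, 1), (280, 2), (200, 10), [42, 43, 45]⟩,
   ⟨9, 8, (300, 0), (290, -1), (280, -2), (200, -10), [42, 44, 46]⟩,
   ⟨0, 1, (250, 40), (340, 20), (340, -20), (250, -40), [56, 57]⟩,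
   ⟨0, 11, (250, 40), (388, 20), (391, 15), (400, 0), [54, 55, 56]⟩,
   ⟨11, 1, (400, 0), (391, -15), (388, -20), (250, -40), [53, 55, 57]⟩,
   ⟨0, 12, (250, 40), (370, 20), (375, 15), (400, -10), [52, 54, 56]⟩,
   ⟨10, 1, (400, 10), (375, -15), (370, -20), (250, -40), [51, 53, 57]⟩,
   ⟨10, 12, (400, 10), (399, 8), (395, 0), (400, -10), [51, 52]⟩,
   ⟨9, 10, (300, 0), (310, 1), (320, 2), (400, 10), [50, 51, 53]⟩,
   ⟨9, 12, (300, 0), (310, -1), (320, -2), (400, -10), [50, 52, 54]⟩,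
   ⟨0, 1, (250, 40), (460, 20), (460, -20), (250, -40), [64, 65]⟩,
   ⟨0, 11, (250, 40), (412, 20), (409, 15), (400, 0), [62, 63, 64]⟩,
   ⟨11, 1, (400, 0), (409, -15), (412, -20), (250, -40), [61, 63, 65]⟩,
   ⟨0, 12, (250, 40), (430, 20), (425, 15), (400, -10), [60, 62, 64]⟩,
   ⟨10, 1, (400, 10), (425, -15), (430, -20), (250, -40), [59, 61, 65]⟩,
   ⟨10, 12, (400, 10), (401, 8), (405, 0), (400, -10), [59, 60]⟩,
   ⟨13, 10, (500, 0), (490, 1), (480, 2), (400, 10), [58, 59, 61]⟩,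
   ⟨13, 12, (500, 0), (490, -1), (480, -2), (400, -10), [58, 60, 62]⟩]

def pz (v : ℕ) : ℤ × ℤ := posL.getD v (0, 0)

def ed (e : ℕ) : ED := edgeL.getD e ⟨0, 0, (0, 0), (0, 0), (0, 0), (0, 0), []⟩

def ED.segs (E : ED) : List ((ℤ × ℤ) × (ℤ × ℤ)) := [(E.p0, E.p1), (E.p1, E.p2), (E.p2, E.p3)]

def lin (n a : ℤ × ℤ) : ℤ := n.1 * a.1 + n.2 * a.2

def nrm (a b : ℤ × ℤ) : ℤ × ℤ := (a.2 - b.2, b.1 - a.1)

def sepBy (n a b c d : ℤ × ℤ) : Bool :=
  (decide (lin n a < lin n c) && decide (lin n a < lin n d) && decide (lin n b < lin n c) &&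
    decide (lin n b < lin n d)) ||
  (decide (lin n c < lin n a) && decide (lin n c < lin n b) && decide (lin n d < lin n a) &&
    decide (lin n d < lin n b))

def disj (a b c d : ℤ × ℤ) : Bool :=
  sepBy (1, 0) a b c d || sepBy (0, 1) a b c d || sepBy (nrm a b) a b c d ||
    sepBy (nrm c d) a b c d

def touchBy (n p a d : ℤ × ℤ) : Bool := decide (lin n a < lin n p) && decide (lin n p ≤ lin n d)

def touch (p a d : ℤ × ℤ) : Bool :=
  touchBy (nrm p d) p a d || touchBy (nrm d p) p a d || touchBy (d.1 - p.1, d.2 - p.2) p a d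

def crz (a b q : ℤ × ℤ) : ℤ := (a.2 - b.2) * (q.1 - a.1) + (b.1 - a.1) * (q.2 - a.2)

def crs (a b c d : ℤ × ℤ) : Bool :=
  decide (crz a b c * crz a b d < 0) && decide (crz c d a * crz c d b < 0)

/-- The polyline of an edge is a simple arc between the positions of its ends. -/
def arcOK (E : ED) : Bool :=
  decide (E.u < 14) && decide (E.v < 14) && decide (E.u ≠ E.v) && decide (E.p0 = pz E.u) &&
    decide (E.p3 = pz E.v) && decide (E.p0 ≠ E.p1) && decide (E.p1 ≠ E.p2) &&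
    decide (E.p2 ≠ E.p3) && touch E.p1 E.p0 E.p2 && touch E.p2 E.p1 E.p3 &&
    disj E.p0 E.p1 E.p2 E.p3 &&
    (List.range 14).all fun w => decide (w = E.u) || decide (w = E.v) ||
      E.segs.all fun s => disj (pz w) (pz w) s.1 s.2

/-- Two segments meet at most in `P` or `Q`. -/
def meetOK (P Q : ℤ × ℤ) (s t : (ℤ × ℤ) × (ℤ × ℤ)) : Bool :=
  disj s.1 s.2 t.1 t.2 ||
    (decide (s.1 = P) && ((decide (t.1 = P) && touch P s.2 t.2) ||
      (decide (t.2 = P) && touch P s.2 t.1))) ||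
    (decide (s.2 = Q) && ((decide (t.1 = Q) && touch Q s.1 t.2) ||
      (decide (t.2 = Q) && touch Q s.1 t.1)))

def noCross (E F : ED) : Bool :=
  E.segs.all fun s => F.segs.all fun t => meetOK E.p0 E.p3 s t

def crossOK (E F : ED) : Bool :=
  decide (E.u ≠ F.u) && decide (E.u ≠ F.v) && decide (E.v ≠ F.u) && decide (E.v ≠ F.v) &&
    E.segs.any fun s => F.segs.any fun t => crs s.1 s.2 t.1 t.2 &&
      E.segs.all fun s' => F.segs.all fun t' =>
        (decide (s' = s) && decide (t' = t)) || disj s'.1 s'.2 t'.1 t'.2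

def sideL (E : ED) (w : ℤ × ℤ) : Bool :=
  E.segs.any fun s => decide (s.2.2 < s.1.2) && decide (s.2.2 ≤ w.2) && decide (w.2 ≤ s.1.2) &&
    decide (crz s.1 s.2 w < 0)

def sideR (E : ED) (w : ℤ × ℤ) : Bool :=
  E.segs.any fun s => decide (s.2.2 < s.1.2) && decide (s.2.2 ≤ w.2) && decide (w.2 ≤ s.1.2) &&
    decide (0 < crz s.1 s.2 w)

def desc (E : ED) : Bool :=
  decide (E.p1.2 < E.p0.2) && decide (E.p2.2 < E.p1.2) && decide (E.p3.2 < E.p2.2)

def parOK (E F : ED) : Bool :=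
  decide (E.u = F.u) && decide (E.v = F.v) && desc E && desc F &&
    ((List.range 14).any fun w => (sideR E (pz w) && sideL F (pz w)) ||
      (sideL E (pz w) && sideR F (pz w))) &&
    ((List.range 14).any fun w => (sideL E (pz w) && sideL F (pz w)) ||
      (sideR E (pz w) && sideR F (pz w)))

def pairOK (e f : ℕ) (E F : ED) : Bool :=
  decide (e = f) ||
    ((if f ∈ E.nb then crossOK E F else noCross E F) &&
      (if (E.u = F.u ∧ E.v = F.v) ∨ (E.u = F.v ∧ E.v = F.u) then parOK E F else true))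

theorem arc_check : (List.range 66).all (fun e => arcOK (ed e)) = true := by decide +kernel

theorem nb_check : (List.range 66).all (fun e => decide ((ed e).nb.length ≤ 3) &&
    decide ((ed e).nb.Nodup) && (ed e).nb.all (fun f => decide (f < 66) && decide (f ≠ e) &&
      (ed f).nb.all fun g => decide (g ∉ (ed e).nb))) = true := by
  decide +kernel

theorem pos_check : (List.range 14).all (fun u => (List.range 14).all fun v =>
    decide (u = v) || decide (pz u ≠ pz v)) = true := by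
  decide +kernel

def forceNat (n : ℕ) (k : ℕ → Bool) : Bool :=
  match n with
  | 0 => k 0
  | m + 1 => k (m + 1)

def forceList : List ℕ → (List ℕ → Bool) → Bool
  | [], k => k []
  | a :: l, k => forceNat a fun a' => forceList l fun l' => k (a' :: l')

/-- Branch over the members of a clause. -/
def br (k : ℕ → ℕ → List ℕ → Bool) (L : ℕ) (lab : List ℕ) : List (ℕ × ℕ × ℕ) → ℕ → Bool
  | [], _ => true
  | t :: ts, X =>
    (X.testBit t.1 || forceNat (lab.getD t.2.1 0) fun a => forceNat (lab.getD t.2.2 0) fun b =>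
      (a == b || forceList (lab.map fun l => if l = b then a else l) fun lab' =>
        forceNat (L ||| 2 ^ t.1) fun L' => k L' X lab')) &&
    forceNat (X ||| 2 ^ t.1) fun X' => br k L lab ts X'

/-- Search over the ways of meeting every clause without closing a cycle. -/
def go : List (List (ℕ × ℕ × ℕ)) → ℕ → ℕ → List ℕ → Bool
  | [], _, _, _ => false
  | cl :: cls, L, X, lab =>
    if cl.any (fun t => L.testBit t.1) then go cls L X lab else br (go cls) L lab cl X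

def tri (e : ℕ) : ℕ × ℕ × ℕ := (e, (ed e).u, (ed e).v)

def clauses : List (List (ℕ × ℕ × ℕ)) :=
  [[(19, 0, 3), (22, 2, 1), (23, 2, 4), (24, 13, 2)],
   [(20, 3, 1), (21, 0, 4), (23, 2, 4), (25, 13, 4)],
   [(21, 0, 4), (20, 3, 1), (22, 2, 1), (24, 13, 2)],
   [(22, 2, 1), (19, 0, 3), (21, 0, 4), (25, 13, 4)],
   [(24, 13, 2), (18, 0, 1), (19, 0, 3), (21, 0, 4)],
   [(25, 13, 4), (18, 0, 1), (20, 3, 1), (22, 2, 1)],
   [(27, 0, 3), (30, 2, 1), (31, 2, 4), (32, 5, 2)],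
   [(28, 3, 1), (29, 0, 4), (31, 2, 4), (33, 5, 4)],
   [(29, 0, 4), (28, 3, 1), (30, 2, 1), (32, 5, 2)],
   [(30, 2, 1), (27, 0, 3), (29, 0, 4), (33, 5, 4)],
   [(32, 5, 2), (26, 0, 1), (27, 0, 3), (29, 0, 4)],
   [(33, 5, 4), (26, 0, 1), (28, 3, 1), (30, 2, 1)],
   [(35, 0, 7), (38, 6, 1), (39, 6, 8), (40, 5, 6)],
   [(36, 7, 1), (37, 0, 8), (39, 6, 8), (41, 5, 8)],
   [(37, 0, 8), (36, 7, 1), (38, 6, 1), (40, 5, 6)],
   [(38, 6, 1), (35, 0, 7), (37, 0, 8), (41, 5, 8)],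
   [(40, 5, 6), (34, 0, 1), (35, 0, 7), (37, 0, 8)],
   [(41, 5, 8), (34, 0, 1), (36, 7, 1), (38, 6, 1)],
   [(43, 0, 7), (46, 6, 1), (47, 6, 8), (48, 9, 6)],
   [(44, 7, 1), (45, 0, 8), (47, 6, 8), (49, 9, 8)],
   [(45, 0, 8), (44, 7, 1), (46, 6, 1), (48, 9, 6)],
   [(46, 6, 1), (43, 0, 7), (45, 0, 8), (49, 9, 8)],
   [(48, 9, 6), (42, 0, 1), (43, 0, 7), (45, 0, 8)],
   [(49, 9, 8), (42, 0, 1), (44, 7, 1), (46, 6, 1)],
   [(51, 0, 11), (54, 10, 1), (55, 10, 12), (56, 9, 10)],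
   [(52, 11, 1), (53, 0, 12), (55, 10, 12), (57, 9, 12)],
   [(53, 0, 12), (52, 11, 1), (54, 10, 1), (56, 9, 10)],
   [(54, 10, 1), (51, 0, 11), (53, 0, 12), (57, 9, 12)],
   [(56, 9, 10), (50, 0, 1), (51, 0, 11), (53, 0, 12)],
   [(57, 9, 12), (50, 0, 1), (52, 11, 1), (54, 10, 1)],
   [(59, 0, 11), (62, 10, 1), (63, 10, 12), (64, 13, 10)],
   [(60, 11, 1), (61, 0, 12), (63, 10, 12), (65, 13, 12)],
   [(61, 0, 12), (60, 11, 1), (62, 10, 1), (64, 13, 10)],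
   [(62, 10, 1), (59, 0, 11), (61, 0, 12), (65, 13, 12)],
   [(64, 13, 10), (58, 0, 1), (59, 0, 11), (61, 0, 12)],
   [(65, 13, 12), (58, 0, 1), (60, 11, 1), (62, 10, 1)]]

theorem clauses_check : clauses.all (fun cl => match cl with
    | [] => false
    | t :: _ => decide (t.1 < 66) && decide ((ed t.1).nb.length = 3) &&
        decide (cl = (t.1 :: (ed t.1).nb).map tri)) = true := by
  decide +kernel

end Pool.Agent.Lib.MP_d99f1b_co
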