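import Mathlib

/-!
Plane geometry lemmas: separation, touching and crossing of segments in `ℂ`, concatenation of
arcs, and the two regions of a lens bounded by two graphs.
-/

open Set Topology Filter

namespace Pool.Agent.Lib.MP_d99f1b_co

/-- A real linear functional on `ℂ`. -/
def lc (α β : ℝ) (p : ℂ) : ℝ := α * p.re + β * p.im

theorem lc_combo (α β s t : ℝ) (a b : ℂ) :
    lc α β (s • a + t • b) = s * lc α β a + t * lc α β b := by
  simp [lc]; ring

theorem disjoint_seg_of_lc {α β : ℝ} {a b c d : ℂ} (h1 : lc α β a < lc α β c)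
    (h2 : lc α β a < lc α β d) (h3 : lc α β b < lc α β c) (h4 : lc α β b < lc α β d) :
    Disjoint (segment ℝ a b) (segment ℝ c d) := by
  rw [Set.disjoint_left]
  rintro p ⟨s, t, hs, ht, hst, rfl⟩ ⟨s', t', hs', ht', hst', h⟩
  have h5 := congrArg (lc α β) h
  rw [lc_combo, lc_combo] at h5
  have hM1 := le_max_left (lc α β a) (lc α β b)
  have hM2 := le_max_right (lc α β a) (lc α β b)
  have hm1 := min_le_left (lc α β c) (lc α β d)
  have hm2 := min_le_right (lc α β c) (lc α β d)
  have hlt : max (lc α β a) (lc α β b) < min (lc α β c) (lc α β d) :=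
    max_lt (lt_min h1 h2) (lt_min h3 h4)
  have e1 : s * lc α β a + t * lc α β b ≤ max (lc α β a) (lc α β b) := by
    calc s * lc α β a + t * lc α β b
        ≤ s * max (lc α β a) (lc α β b) + t * max (lc α β a) (lc α β b) := by gcongr
      _ = _ := by rw [← add_mul, hst, one_mul]
  have e2 : min (lc α β c) (lc α β d) ≤ s' * lc α β c + t' * lc α β d := by
    calc min (lc α β c) (lc α β d)
        = s' * min (lc α β c) (lc α β d) + t' * min (lc α β c) (lc α β d) := by
          rw [← add_mul, hst', one_mul]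
      _ ≤ _ := by gcongr
  linarith

theorem eq_of_touch {α β : ℝ} {p a d q : ℂ} (h1 : lc α β a < lc α β p) (h2 : lc α β p ≤ lc α β d)
    (hq1 : q ∈ segment ℝ p a) (hq2 : q ∈ segment ℝ p d) : q = p := by
  obtain ⟨s, t, hs, ht, hst, rfl⟩ := hq1
  obtain ⟨s', t', hs', ht', hst', h⟩ := hq2
  have h5 := congrArg (lc α β) h
  rw [lc_combo, lc_combo] at h5
  have hs1 : s = 1 - t := by linarith
  have hs1' : s' = 1 - t' := by linarith
  subst hs1 hs1'
  have ht0 : t = 0 := by
    by_contra hne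
    have hpos : 0 < t := lt_of_le_of_ne ht (Ne.symm hne)
    nlinarith [mul_pos hpos (sub_pos.mpr h1), mul_nonneg ht' (sub_nonneg.mpr h2)]
  subst ht0
  simp

/-- The orientation determinant. -/
def cr (a b q : ℂ) : ℝ := (a.im - b.im) * (q.re - a.re) + (b.re - a.re) * (q.im - a.im)

theorem cr_combo (a b c d : ℂ) {s t : ℝ} (hst : s + t = 1) :
    cr a b (s • c + t • d) = s * cr a b c + t * cr a b d := by
  have : s = 1 - t := by linarith
  subst this
  simp [cr]; ring

theorem cr_left (a b : ℂ) : cr a b a = 0 := by simp [cr]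
theorem cr_right (a b : ℂ) : cr a b b = 0 := by simp [cr]; ring

theorem cr_of_mem {a b q : ℂ} (h : q ∈ segment ℝ a b) : cr a b q = 0 := by
  obtain ⟨s, t, _, _, hst, rfl⟩ := h
  rw [cr_combo _ _ _ _ hst, cr_left, cr_right]; ring

theorem exists_param {x y z : ℝ} (h : (x - z) * (y - z) < 0) :
    ∃ s t : ℝ, 0 ≤ s ∧ 0 ≤ t ∧ s + t = 1 ∧ s * x + t * y = z := by
  rcases lt_trichotomy x y with hxy | hxy | hxy
  · have h1 : x < z := by nlinarith
    have h2 : z < y := by nlinarith
    have hd : 0 < y - x := by linarith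
    refine ⟨(y - z) / (y - x), (z - x) / (y - x), div_nonneg (by linarith) hd.le,
      div_nonneg (by linarith) hd.le, ?_, ?_⟩ <;> field_simp <;> ring
  · subst hxy; nlinarith [sq_nonneg (x - z)]
  · have h1 : z < x := by nlinarith
    have h2 : y < z := by nlinarith
    have hd : 0 < x - y := by linarith
    refine ⟨(z - y) / (x - y), (x - z) / (x - y), div_nonneg (by linarith) hd.le,
      div_nonneg (by linarith) hd.le, ?_, ?_⟩ <;> field_simp <;> ring

theorem crossing_seg {a b c d : ℂ} (h1 : cr a b c * cr a b d < 0) (h2 : cr c d a * cr c d b < 0) :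
    ∃ (p : ℂ) (φ : ℂ ≃ₜ ℂ), φ p = 0 ∧ segment ℝ a b ∩ segment ℝ c d = {p} ∧
      ∀ᶠ q in 𝓝 p, (q ∈ segment ℝ a b ↔ (φ q).im = 0) ∧ (q ∈ segment ℝ c d ↔ (φ q).re = 0) := by
  have hne : cr a b c - cr a b d ≠ 0 := by
    intro h
    have : cr a b c = cr a b d := by linarith
    rw [this] at h1
    nlinarith [sq_nonneg (cr a b d)]
  let L : ℂ →ₗ[ℝ] ℂ :=
    { toFun := fun q => ⟨(c.im - d.im) * q.re + (d.re - c.re) * q.im,
        (a.im - b.im) * q.re + (b.re - a.re) * q.im⟩
      map_add' := fun x y => by apply Complex.ext <;> simp <;> ring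
      map_smul' := fun r x => by apply Complex.ext <;> simp <;> ring }
  have hL : Function.Injective L := by
    rw [injective_iff_map_eq_zero]
    intro q hq
    have e1 : (c.im - d.im) * q.re + (d.re - c.re) * q.im = 0 := congrArg Complex.re hq
    have e2 : (a.im - b.im) * q.re + (b.re - a.re) * q.im = 0 := congrArg Complex.im hq
    have hD : cr a b c - cr a b d =
        (a.im - b.im) * (c.re - d.re) + (b.re - a.re) * (c.im - d.im) := by
      simp [cr]; ring
    apply Complex.ext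
    · have : (cr a b c - cr a b d) * q.re = 0 := by
        rw [hD]; linear_combination (b.re - a.re) * e1 - (d.re - c.re) * e2
      simpa [hne] using this
    · have : (cr a b c - cr a b d) * q.im = 0 := by
        rw [hD]; linear_combination (c.im - d.im) * e2 - (a.im - b.im) * e1
      simpa [hne] using this
  let w : ℂ := ⟨(c.im - d.im) * c.re + (d.re - c.re) * c.im,
        (a.im - b.im) * a.re + (b.re - a.re) * a.im⟩
  let φ : ℂ ≃ₜ ℂ :=
    (LinearEquiv.ofInjectiveEndo L hL).toContinuousLinearEquiv.toHomeomorph.trans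
      (Homeomorph.subRight w)
  have hre : ∀ q, (φ q).re = cr c d q := fun q => by
    change (L q - w).re = _
    simp [L, w, cr]; ring
  have him : ∀ q, (φ q).im = cr a b q := fun q => by
    change (L q - w).im = _
    simp [L, w, cr]; ring
  have key1 : ∀ q, cr a b q = 0 → (cr c d a - cr c d q) * (cr c d b - cr c d q) < 0 →
      q ∈ segment ℝ a b := by
    intro q hq hlt
    obtain ⟨s, t, hs, ht, hst, h⟩ := exists_param hlt
    refine ⟨s, t, hs, ht, hst, φ.injective (Complex.ext ?_ ?_)⟩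
    · rw [hre, hre, cr_combo _ _ _ _ hst, h]
    · rw [him, him, cr_combo _ _ _ _ hst, cr_left, cr_right, hq]; ring
  have key2 : ∀ q, cr c d q = 0 → (cr a b c - cr a b q) * (cr a b d - cr a b q) < 0 →
      q ∈ segment ℝ c d := by
    intro q hq hlt
    obtain ⟨s, t, hs, ht, hst, h⟩ := exists_param hlt
    refine ⟨s, t, hs, ht, hst, φ.injective (Complex.ext ?_ ?_)⟩
    · rw [hre, hre, cr_combo _ _ _ _ hst, cr_left, cr_right, hq]; ring
    · rw [him, him, cr_combo _ _ _ _ hst, h]
  have hp : φ (φ.symm 0) = 0 := φ.apply_symm_apply 0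
  have hp1 : cr c d (φ.symm 0) = 0 := by rw [← hre, hp]; rfl
  have hp2 : cr a b (φ.symm 0) = 0 := by rw [← him, hp]; rfl
  refine ⟨φ.symm 0, φ, hp, ?_, ?_⟩
  · ext q
    constructor
    · rintro ⟨hq1, hq2⟩
      apply φ.injective
      rw [hp]
      apply Complex.ext
      · rw [hre, cr_of_mem hq2]; rfl
      · rw [him, cr_of_mem hq1]; rfl
    · rintro rfl
      exact ⟨key1 _ hp2 (by rw [hp1]; simpa using h2), key2 _ hp1 (by rw [hp2]; simpa using h1)⟩
  · have c1 : Continuous fun q => (cr c d a - cr c d q) * (cr c d b - cr c d q) := by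
      unfold cr; fun_prop
    have c2 : Continuous fun q => (cr a b c - cr a b q) * (cr a b d - cr a b q) := by
      unfold cr; fun_prop
    have n1 := c1.continuousAt.eventually_lt (continuousAt_const (y := (0 : ℝ)))
      (x₀ := φ.symm 0) (by rw [hp1]; simpa using h2)
    have n2 := c2.continuousAt.eventually_lt (continuousAt_const (y := (0 : ℝ)))
      (x₀ := φ.symm 0) (by rw [hp2]; simpa using h1)
    filter_upwards [n1, n2] with q hq1 hq2
    rw [hre, him]
    exact ⟨⟨cr_of_mem, fun h => key1 q h hq1⟩, ⟨cr_of_mem, fun h => key2 q h hq2⟩⟩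

theorem trans_injective {x y z : ℂ} {γ : Path x y} {γ' : Path y z} (h : Function.Injective γ)
    (h' : Function.Injective γ') (hi : ∀ q ∈ range γ, q ∈ range γ' → q = y) :
    Function.Injective (γ.trans γ') := by
  intro s t hst
  rw [Path.trans_apply, Path.trans_apply] at hst
  split_ifs at hst with hs ht ht
  · have := congrArg Subtype.val (h hst)
    exact Subtype.ext (by simp only at this; linarith)
  · have e := hi _ (mem_range_self _) ⟨_, hst.symm⟩
    have e2 := congrArg Subtype.val (h' ((hst.symm.trans e).trans γ'.source.symm))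
    simp only [Icc.coe_zero] at e2
    exact absurd (by linarith) ht
  · have e := hi _ ⟨_, hst.symm⟩ (mem_range_self _)
    have e2 := congrArg Subtype.val (h' (e.trans γ'.source.symm))
    simp only [Icc.coe_zero] at e2
    exact absurd (by linarith) hs
  · have := congrArg Subtype.val (h' hst)
    exact Subtype.ext (by simp only at this; linarith)

theorem exists_arc {p0 p1 p2 p3 : ℂ} (h01 : p0 ≠ p1) (h12 : p1 ≠ p2) (h23 : p2 ≠ p3)
    (t1 : ∀ q ∈ segment ℝ p1 p0, q ∈ segment ℝ p1 p2 → q = p1)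
    (t2 : ∀ q ∈ segment ℝ p2 p1, q ∈ segment ℝ p2 p3 → q = p2)
    (hd : Disjoint (segment ℝ p0 p1) (segment ℝ p2 p3)) :
    ∃ γ : Path p0 p3, Function.Injective γ ∧
      range γ = segment ℝ p0 p1 ∪ (segment ℝ p1 p2 ∪ segment ℝ p2 p3) := by
  refine ⟨(Path.segment p0 p1).trans ((Path.segment p1 p2).trans (Path.segment p2 p3)), ?_, ?_⟩
  · refine trans_injective (Path.segment_injective_of_ne h01)
      (trans_injective (Path.segment_injective_of_ne h12) (Path.segment_injective_of_ne h23) ?_) ?_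
    · intro q hq hq'
      rw [Path.range_segment] at hq hq'
      exact t2 q (by rwa [segment_symm]) hq'
    · intro q hq hq'
      rw [Path.trans_range, Path.range_segment, Path.range_segment] at hq'
      rw [Path.range_segment] at hq
      rcases hq' with hq' | hq'
      · exact t1 q (by rwa [segment_symm]) hq'
      · exact absurd hq' (Set.disjoint_left.mp hd hq)
  · rw [Path.trans_range, Path.trans_range, Path.range_segment, Path.range_segment,
      Path.range_segment]

/-- `A` is the graph `re = g im` of a continuous function over `lo ≤ im ≤ hi`. -/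
def IsGraph (A : Set ℂ) (lo hi : ℝ) : Prop :=
  ∃ g : ℝ → ℝ, Continuous g ∧ A = {p | lo ≤ p.im ∧ p.im ≤ hi ∧ p.re = g p.im}

theorem isGraph_segment {a b : ℂ} (h : b.im < a.im) : IsGraph (segment ℝ a b) b.im a.im := by
  have hd : 0 < a.im - b.im := by linarith
  refine ⟨fun y => b.re + (y - b.im) / (a.im - b.im) * (a.re - b.re), by fun_prop, ?_⟩
  ext p
  constructor
  · rintro ⟨s, t, hs, ht, hst, rfl⟩
    have : t = 1 - s := by linarith
    subst this
    simp only [mem_ofPred_eq, Complex.add_im, Complex.smul_im, smul_eq_mul, Complex.add_re,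
      Complex.smul_re]
    refine ⟨by nlinarith, by nlinarith, ?_⟩
    field_simp
    ring
  · rintro ⟨h1, h2, h3⟩
    refine ⟨(p.im - b.im) / (a.im - b.im), (a.im - p.im) / (a.im - b.im),
      div_nonneg (by linarith) hd.le, div_nonneg (by linarith) hd.le, ?_, ?_⟩
    · field_simp; ring
    · apply Complex.ext
      · simp only [Complex.add_re, Complex.smul_re, smul_eq_mul, h3]
        field_simp; ring
      · simp only [Complex.add_im, Complex.smul_im, smul_eq_mul]
        field_simp; ring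

theorem IsGraph.union {A B : Set ℂ} {lo mid hi : ℝ} (hA : IsGraph A mid hi) (hB : IsGraph B lo mid)
    (h1 : lo ≤ mid) (h2 : mid ≤ hi) {q : ℂ} (hqA : q ∈ A) (hqB : q ∈ B) (hq : q.im = mid) :
    IsGraph (A ∪ B) lo hi := by
  obtain ⟨g1, c1, rfl⟩ := hA
  obtain ⟨g2, c2, rfl⟩ := hB
  have he : g1 mid = g2 mid := by
    rw [← hq]; exact hqA.2.2.symm.trans hqB.2.2
  refine ⟨fun y => if mid ≤ y then g1 y else g2 y,
    Continuous.if_le c1 c2 continuous_const continuous_id (fun y hy => by rw [← hy]; exact he), ?_⟩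
  ext p
  simp only [mem_union, mem_ofPred_eq]
  constructor
  · rintro (⟨h3, h4, h5⟩ | ⟨h3, h4, h5⟩)
    · exact ⟨by linarith, h4, by rw [if_pos h3]; exact h5⟩
    · refine ⟨h3, by linarith, ?_⟩
      split_ifs with h6
      · have : p.im = mid := le_antisymm h4 h6
        rw [h5, this, he]
      · exact h5
  · rintro ⟨h3, h4, h5⟩
    split_ifs at h5 with h6
    · exact Or.inl ⟨h6, h4, h5⟩
    · exact Or.inr ⟨h3, (not_le.mp h6).le, h5⟩

theorem isPreconnected_left {g : ℝ → ℝ} (hg : Continuous g) :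
    IsPreconnected {p : ℂ | p.re < g p.im} := by
  have : {p : ℂ | p.re < g p.im} =
      (fun x : ℝ × ℝ => (⟨g x.1 - x.2, x.1⟩ : ℂ)) '' (univ ×ˢ Ioi 0) := by
    ext p
    constructor
    · intro hp
      refine ⟨(p.im, g p.im - p.re), ⟨mem_univ _, (sub_pos.mpr hp : 0 < g p.im - p.re)⟩, ?_⟩
      apply Complex.ext <;> simp
    · rintro ⟨x, ⟨_, hx⟩, rfl⟩
      simpa using hx
  rw [this]
  refine (isPreconnected_univ.prod isPreconnected_Ioi).image _ (Continuous.continuousOn ?_)
  exact Complex.equivRealProdCLM.symm.continuous.comp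
    (f := fun x : ℝ × ℝ => (g x.1 - x.2, x.1)) (by fun_prop)

theorem isPreconnected_right {g : ℝ → ℝ} (hg : Continuous g) :
    IsPreconnected {p : ℂ | g p.im < p.re} := by
  have : {p : ℂ | g p.im < p.re} =
      (fun x : ℝ × ℝ => (⟨g x.1 + x.2, x.1⟩ : ℂ)) '' (univ ×ˢ Ioi 0) := by
    ext p
    constructor
    · intro hp
      refine ⟨(p.im, p.re - g p.im), ⟨mem_univ _, (sub_pos.mpr hp : 0 < p.re - g p.im)⟩, ?_⟩
      apply Complex.ext <;> simp
    · rintro ⟨x, ⟨_, hx⟩, rfl⟩
      simpa using hx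
  rw [this]
  refine (isPreconnected_univ.prod isPreconnected_Ioi).image _ (Continuous.continuousOn ?_)
  exact Complex.equivRealProdCLM.symm.continuous.comp
    (f := fun x : ℝ × ℝ => (g x.1 + x.2, x.1)) (by fun_prop)

theorem isPreconnected_between {g h : ℝ → ℝ} (hg : Continuous g) (hh : Continuous h) {lo hi : ℝ}
    (hlt : ∀ y, lo < y → y < hi → g y < h y) :
    IsPreconnected {p : ℂ | lo < p.im ∧ p.im < hi ∧ g p.im < p.re ∧ p.re < h p.im} := by
  have : {p : ℂ | lo < p.im ∧ p.im < hi ∧ g p.im < p.re ∧ p.re < h p.im} =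
      (fun x : ℝ × ℝ => (⟨g x.1 + x.2 * (h x.1 - g x.1), x.1⟩ : ℂ)) '' (Ioo lo hi ×ˢ Ioo 0 1) := by
    ext p
    constructor
    · rintro ⟨h1, h2, h3, h4⟩
      have hd : 0 < h p.im - g p.im := by linarith
      refine ⟨(p.im, (p.re - g p.im) / (h p.im - g p.im)), ⟨⟨h1, h2⟩,
        div_pos (by linarith) hd, (div_lt_one hd).mpr (by linarith)⟩, ?_⟩
      apply Complex.ext
      · simp only
        field_simp; ring
      · rfl
    · rintro ⟨x, ⟨⟨h1, h2⟩, h3, h4⟩, rfl⟩
      have := hlt _ h1 h2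
      refine ⟨h1, h2, ?_, ?_⟩
      · simp only; nlinarith
      · simp only; nlinarith
  rw [this]
  refine (isPreconnected_Ioo.prod isPreconnected_Ioo).image _ (Continuous.continuousOn ?_)
  exact Complex.equivRealProdCLM.symm.continuous.comp
    (f := fun x : ℝ × ℝ => (g x.1 + x.2 * (h x.1 - g x.1), x.1)) (by fun_prop)

theorem lens {A B : Set ℂ} {lo hi : ℝ} (hA : IsGraph A lo hi) (hB : IsGraph B lo hi)
    (htop : ∃ p ∈ A ∩ B, p.im = hi) (hbot : ∃ p ∈ A ∩ B, p.im = lo)
    (hdisj : ∀ p ∈ A ∩ B, p.im = lo ∨ p.im = hi) {u v : ℂ}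
    (hu : ∃ p ∈ A, ∃ p' ∈ B, p.im = u.im ∧ p'.im = u.im ∧
      ((p.re < u.re ∧ u.re < p'.re) ∨ (p'.re < u.re ∧ u.re < p.re)))
    (hv : ∃ p ∈ A, ∃ p' ∈ B, p.im = v.im ∧ p'.im = v.im ∧
      ((v.re < p.re ∧ v.re < p'.re) ∨ (p.re < v.re ∧ p'.re < v.re))) :
    ∀ q ∉ A ∪ B, u ∈ connectedComponentIn (A ∪ B)ᶜ q ∨ v ∈ connectedComponentIn (A ∪ B)ᶜ q := by
  obtain ⟨g1, c1, rfl⟩ := hA
  obtain ⟨g2, c2, rfl⟩ := hB
  have ehi : g1 hi = g2 hi := by
    obtain ⟨p, ⟨h1, h2⟩, h3⟩ := htop
    rw [← h3]; exact h1.2.2.symm.trans h2.2.2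
  have elo : g1 lo = g2 lo := by
    obtain ⟨p, ⟨h1, h2⟩, h3⟩ := hbot
    rw [← h3]; exact h1.2.2.symm.trans h2.2.2
  have hne : ∀ y, lo < y → y < hi → min (g1 y) (g2 y) < max (g1 y) (g2 y) := by
    intro y h1 h2
    rw [min_lt_max]
    intro h
    rcases hdisj ⟨g1 y, y⟩ ⟨⟨h1.le, h2.le, rfl⟩, ⟨h1.le, h2.le, h⟩⟩ with h3 | h3
    · exact h1.ne' h3
    · exact h2.ne h3
  set C : Set ℂ := {p | lo ≤ p.im ∧ p.im ≤ hi ∧ p.re = g1 p.im} ∪
    {p | lo ≤ p.im ∧ p.im ≤ hi ∧ p.re = g2 p.im} with hC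
  let U : Set ℂ := {p : ℂ | lo < p.im ∧ p.im < hi ∧ min (g1 p.im) (g2 p.im) < p.re ∧
    p.re < max (g1 p.im) (g2 p.im)}
  let L : Set ℂ := {p : ℂ | p.re < min (g1 p.im) (g2 p.im)}
  let R : Set ℂ := {p : ℂ | max (g1 p.im) (g2 p.im) < p.re}
  let T : Set ℂ := {p : ℂ | hi < p.im}
  let Bo : Set ℂ := {p : ℂ | p.im < lo}
  have hU : IsPreconnected U := isPreconnected_between (c1.min c2) (c1.max c2) hne
  have hL : IsPreconnected L := isPreconnected_left (c1.min c2)
  have hR : IsPreconnected R := isPreconnected_right (c1.max c2)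
  have hT : IsPreconnected T := (convex_halfSpace_im_gt hi).isPreconnected
  have hBo : IsPreconnected Bo := (convex_halfSpace_im_lt lo).isPreconnected
  have hO : IsPreconnected ((Bo ∪ L) ∪ (T ∪ R)) := by
    refine IsPreconnected.union (⟨min (g1 (hi + 1)) (g2 (hi + 1)) - 1, hi + 1⟩ : ℂ)
      (Or.inr ?_) (Or.inl ?_) ?_ ?_
    · exact sub_one_lt (min (g1 (hi + 1)) (g2 (hi + 1)))
    · simp [T]
    · refine IsPreconnected.union (⟨min (g1 (lo - 1)) (g2 (lo - 1)) - 1, lo - 1⟩ : ℂ) ?_ ?_ hBo hL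
      · simp [Bo]
      · exact sub_one_lt (min (g1 (lo - 1)) (g2 (lo - 1)))
    · refine IsPreconnected.union (⟨max (g1 (hi + 1)) (g2 (hi + 1)) + 1, hi + 1⟩ : ℂ) ?_ ?_ hT hR
      · simp [T]
      · exact lt_add_one (max (g1 (hi + 1)) (g2 (hi + 1)))
  have hUC : U ⊆ Cᶜ := by
    rintro p ⟨_, _, h3, h4⟩ (h | h)
    · rw [h.2.2] at h3 h4
      rcases le_total (g1 p.im) (g2 p.im) with h5 | h5
      · rw [min_eq_left h5] at h3; exact lt_irrefl _ h3
      · rw [max_eq_left h5] at h4; exact lt_irrefl _ h4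
    · rw [h.2.2] at h3 h4
      rcases le_total (g1 p.im) (g2 p.im) with h5 | h5
      · rw [max_eq_right h5] at h4; exact lt_irrefl _ h4
      · rw [min_eq_right h5] at h3; exact lt_irrefl _ h3
  have hOC : (Bo ∪ L) ∪ (T ∪ R) ⊆ Cᶜ := by
    rintro p ((h | h) | (h | h)) (h' | h')
    · exact absurd h'.1 (not_le.mpr h)
    · exact absurd h'.1 (not_le.mpr h)
    · exact absurd ((min_le_left _ _).trans h'.2.2.ge) (not_le.mpr h)
    · exact absurd ((min_le_right _ _).trans h'.2.2.ge) (not_le.mpr h)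
    · exact absurd h'.2.1 (not_le.mpr h)
    · exact absurd h'.2.1 (not_le.mpr h)
    · exact absurd (h'.2.2.le.trans (le_max_left _ _)) (not_le.mpr h)
    · exact absurd (h'.2.2.le.trans (le_max_right _ _)) (not_le.mpr h)
  have inU : ∀ p : ℂ, lo ≤ p.im → p.im ≤ hi → min (g1 p.im) (g2 p.im) < p.re →
      p.re < max (g1 p.im) (g2 p.im) → p ∈ U := by
    intro p h1 h2 h3 h4
    refine ⟨lt_of_le_of_ne h1 ?_, lt_of_le_of_ne h2 ?_, h3, h4⟩
    · intro h
      rw [← h, elo] at h3 h4
      simp at h3 h4; linarith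
    · intro h
      rw [h, ehi] at h3 h4
      simp at h3 h4; linarith
  have huU : u ∈ U := by
    obtain ⟨p, hp, p', hp', e1, e2, h⟩ := hu
    have f1 : p.re = g1 u.im := by rw [← e1]; exact hp.2.2
    have f2 : p'.re = g2 u.im := by rw [← e2]; exact hp'.2.2
    rw [f1, f2] at h
    refine inU u (e1 ▸ hp.1) (e1 ▸ hp.2.1) ?_ ?_
    · rcases h with h | h
      · exact lt_of_le_of_lt (min_le_left _ _) h.1
      · exact lt_of_le_of_lt (min_le_right _ _) h.1
    · rcases h with h | h
      · exact lt_of_lt_of_le h.2 (le_max_right _ _)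
      · exact lt_of_lt_of_le h.2 (le_max_left _ _)
  have hvO : v ∈ (Bo ∪ L) ∪ (T ∪ R) := by
    obtain ⟨p, hp, p', hp', e1, e2, h⟩ := hv
    have f1 : p.re = g1 v.im := by rw [← e1]; exact hp.2.2
    have f2 : p'.re = g2 v.im := by rw [← e2]; exact hp'.2.2
    rw [f1, f2] at h
    rcases h with h | h
    · exact Or.inl (Or.inr (lt_min h.1 h.2))
    · exact Or.inr (Or.inr (max_lt h.1 h.2))
  intro q hq
  by_cases hqO : q ∈ (Bo ∪ L) ∪ (T ∪ R)
  · exact Or.inr (hO.subset_connectedComponentIn hqO hOC hvO)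
  · left
    simp only [mem_union, mem_ofPred_eq, not_or, not_lt, Bo, L, T, R] at hqO
    obtain ⟨⟨h1, h2⟩, h3, h4⟩ := hqO
    have n1 : q.re ≠ g1 q.im := fun h => hq (Or.inl ⟨h1, h3, h⟩)
    have n2 : q.re ≠ g2 q.im := fun h => hq (Or.inr ⟨h1, h3, h⟩)
    have hqU : q ∈ U := by
      refine inU q h1 h3 (lt_of_le_of_ne h2 ?_) (lt_of_le_of_ne h4 ?_)
      · intro h
        rcases min_choice (g1 q.im) (g2 q.im) with h5 | h5
        · exact n1 (h ▸ h5)
        · exact n2 (h ▸ h5)
      · intro h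
        rcases max_choice (g1 q.im) (g2 q.im) with h5 | h5
        · exact n1 (h ▸ h5)
        · exact n2 (h ▸ h5)
    exact hU.subset_connectedComponentIn hqU hUC huU

/-- The point of a descending segment at a given height, compared with a given point. -/
theorem exists_at_height {a b w : ℂ} (h : b.im < a.im) (h1 : b.im ≤ w.im) (h2 : w.im ≤ a.im) :
    ∃ p ∈ segment ℝ a b, p.im = w.im ∧ (a.im - b.im) * (w.re - p.re) = cr a b w := by
  have hd : 0 < a.im - b.im := by linarith
  refine ⟨((w.im - b.im) / (a.im - b.im)) • a + ((a.im - w.im) / (a.im - b.im)) • b,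
    ⟨_, _, div_nonneg (by linarith) hd.le, div_nonneg (by linarith) hd.le, ?_, rfl⟩, ?_, ?_⟩
  · field_simp; ring
  · simp only [Complex.add_im, Complex.smul_im, smul_eq_mul]
    field_simp; ring
  · simp only [Complex.add_re, Complex.smul_re, smul_eq_mul, cr]
    field_simp; ring

end Pool.Agent.Lib.MP_d99f1b_co
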