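import Pool.Agent.Lib.MP_d99f1b_co.Geom
import Pool.Agent.Lib.MP_d99f1b_co.Data

/-!
Soundness of the Boolean checks.
-/

open Set Topology Filter

namespace Pool.Agent.Lib.MP_d99f1b_co

/-- An integer point as a point of the plane. -/
def toC (a : ℤ × ℤ) : ℂ := ⟨a.1, a.2⟩

theorem toC_injective : Function.Injective toC := by
  intro a b h
  have h1 : (a.1 : ℝ) = b.1 := congrArg Complex.re h
  have h2 : (a.2 : ℝ) = b.2 := congrArg Complex.im h
  exact Prod.ext (by exact_mod_cast h1) (by exact_mod_cast h2)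

theorem lc_toC (n a : ℤ × ℤ) : lc n.1 n.2 (toC a) = (lin n a : ℤ) := by
  simp [lc, toC, lin]

theorem cr_toC (a b q : ℤ × ℤ) : cr (toC a) (toC b) (toC q) = (crz a b q : ℤ) := by
  simp [cr, toC, crz]

/-- The segment between two integer points. -/
def sg (s : (ℤ × ℤ) × (ℤ × ℤ)) : Set ℂ := segment ℝ (toC s.1) (toC s.2)

theorem isClosed_sg (s : (ℤ × ℤ) × (ℤ × ℤ)) : IsClosed (sg s) := by
  rw [sg, segment_eq_image]
  exact (isCompact_Icc.image (by fun_prop)).isClosed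

theorem sepBy_sound {n a b c d : ℤ × ℤ} (h : sepBy n a b c d = true) :
    Disjoint (sg (a, b)) (sg (c, d)) := by
  simp only [sepBy, Bool.or_eq_true, Bool.and_eq_true, decide_eq_true_eq] at h
  rcases h with ⟨⟨⟨h1, h2⟩, h3⟩, h4⟩ | ⟨⟨⟨h1, h2⟩, h3⟩, h4⟩
  · refine disjoint_seg_of_lc (α := n.1) (β := n.2) ?_ ?_ ?_ ?_ <;>
      rw [lc_toC, lc_toC] <;> exact_mod_cast ‹_›
  · refine Disjoint.symm (disjoint_seg_of_lc (α := n.1) (β := n.2) ?_ ?_ ?_ ?_) <;>
      rw [lc_toC, lc_toC] <;> exact_mod_cast ‹_›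

theorem disj_sound {a b c d : ℤ × ℤ} (h : disj a b c d = true) :
    Disjoint (sg (a, b)) (sg (c, d)) := by
  simp only [disj, Bool.or_eq_true] at h
  rcases h with ((h | h) | h) | h <;> exact sepBy_sound h

theorem touch_sound {p a d : ℤ × ℤ} (h : touch p a d = true) {q : ℂ} (h1 : q ∈ sg (p, a))
    (h2 : q ∈ sg (p, d)) : q = toC p := by
  have key : ∀ n, touchBy n p a d = true → q = toC p := by
    intro n hn
    simp only [touchBy, Bool.and_eq_true, decide_eq_true_eq] at hn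
    refine eq_of_touch (α := n.1) (β := n.2) ?_ ?_ h1 h2 <;> rw [lc_toC, lc_toC]
    · exact_mod_cast hn.1
    · exact_mod_cast hn.2
  simp only [touch, Bool.or_eq_true] at h
  rcases h with (h | h) | h <;> exact key _ h

theorem sg_symm (a b : ℤ × ℤ) : sg (a, b) = sg (b, a) := segment_symm _ _ _

/-- The point set of the polyline of an edge. -/
def arcSet (E : ED) : Set ℂ := {q | ∃ s ∈ E.segs, q ∈ sg s}

theorem arcSet_eq (E : ED) :
    arcSet E = sg (E.p0, E.p1) ∪ (sg (E.p1, E.p2) ∪ sg (E.p2, E.p3)) := by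
  ext q
  simp [arcSet, ED.segs]

theorem arcOK_sound {E : ED} (h : arcOK E = true) :
    E.u < 14 ∧ E.v < 14 ∧ E.u ≠ E.v ∧ E.p0 = pz E.u ∧ E.p3 = pz E.v ∧
      (∃ γ : Path (toC E.p0) (toC E.p3), Function.Injective γ ∧ range γ = arcSet E) ∧
      ∀ w < 14, toC (pz w) ∈ arcSet E → w = E.u ∨ w = E.v := by
  simp only [arcOK, Bool.and_eq_true, decide_eq_true_eq, List.all_eq_true, List.mem_range,
    Bool.or_eq_true] at h
  obtain ⟨⟨⟨⟨⟨⟨⟨⟨⟨⟨⟨h1, h2⟩, h3⟩, h4⟩, h5⟩, h6⟩, h7⟩, h8⟩, h9⟩, h10⟩, h11⟩, h12⟩ := h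
  refine ⟨h1, h2, h3, h4, h5, ?_, ?_⟩
  · rw [arcSet_eq]
    exact exists_arc (toC_injective.ne h6) (toC_injective.ne h7) (toC_injective.ne h8)
      (fun q a b => touch_sound h9 a b) (fun q a b => touch_sound h10 a b) (disj_sound h11)
  · rintro w hw ⟨s, hs, hq⟩
    rcases h12 w hw with h | h
    · exact h
    · exact absurd hq (Set.disjoint_left.mp (disj_sound (h s hs)) (left_mem_segment _ _ _))

theorem noCross_sound {E F : ED} (h : noCross E F = true) {q : ℂ} (h1 : q ∈ arcSet E)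
    (h2 : q ∈ arcSet F) : q = toC E.p0 ∨ q = toC E.p3 := by
  obtain ⟨⟨a, b⟩, hs, hq⟩ := h1
  obtain ⟨⟨c, d⟩, ht, hq'⟩ := h2
  simp only [noCross, List.all_eq_true] at h
  have := h _ hs _ ht
  simp only [meetOK, Bool.or_eq_true, Bool.and_eq_true, decide_eq_true_eq] at this
  rcases this with (h | ⟨rfl, ⟨rfl, h⟩ | ⟨rfl, h⟩⟩) | ⟨rfl, ⟨rfl, h⟩ | ⟨rfl, h⟩⟩
  · exact absurd hq' (Set.disjoint_left.mp (disj_sound h) hq)
  · exact Or.inl (touch_sound h hq hq')
  · exact Or.inl (touch_sound h hq (sg_symm _ _ ▸ hq'))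
  · exact Or.inr (touch_sound h (sg_symm _ _ ▸ hq) hq')
  · exact Or.inr (touch_sound h (sg_symm _ _ ▸ hq) (sg_symm _ _ ▸ hq'))

theorem eventually_arcSet {E : ED} {s : (ℤ × ℤ) × (ℤ × ℤ)} (hs : s ∈ E.segs) {p : ℂ}
    (h : ∀ s' ∈ E.segs, s' = s ∨ p ∉ sg s') : ∀ᶠ q in 𝓝 p, (q ∈ arcSet E ↔ q ∈ sg s) := by
  have : ∀ s' ∈ {s' | s' ∈ E.segs}, ∀ᶠ q in 𝓝 p, q ∈ sg s' → q ∈ sg s := by
    intro s' hs'
    rcases h s' hs' with rfl | h
    · exact Eventually.of_forall fun _ => id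
    · filter_upwards [(isClosed_sg s').isOpen_compl.mem_nhds h] with q hq hq'
      exact absurd hq' hq
  filter_upwards [(eventually_all_finite (List.finite_toSet E.segs)).mpr this] with q hq
  exact ⟨fun ⟨s', hs', hq'⟩ => hq s' hs' hq', fun hq' => ⟨s, hs, hq'⟩⟩

theorem crossOK_sound {E F : ED} (h : crossOK E F = true) :
    (E.u ≠ F.u ∧ E.u ≠ F.v ∧ E.v ≠ F.u ∧ E.v ≠ F.v) ∧
      ∃ (p : ℂ) (φ : ℂ ≃ₜ ℂ), φ p = 0 ∧ arcSet E ∩ arcSet F = {p} ∧
        ∀ᶠ q in 𝓝 p, (q ∈ arcSet E ↔ (φ q).im = 0) ∧ (q ∈ arcSet F ↔ (φ q).re = 0) := by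
  simp only [crossOK, Bool.and_eq_true, decide_eq_true_eq, List.any_eq_true, List.all_eq_true,
    Bool.or_eq_true] at h
  obtain ⟨⟨⟨⟨h1, h2⟩, h3⟩, h4⟩, s, hs, t, ht, hc, hall⟩ := h
  refine ⟨⟨h1, h2, h3, h4⟩, ?_⟩
  simp only [crs, Bool.and_eq_true, decide_eq_true_eq] at hc
  obtain ⟨p, φ, hφ, hi, hev⟩ := crossing_seg (a := toC s.1) (b := toC s.2) (c := toC t.1)
    (d := toC t.2) (by rw [cr_toC, cr_toC]; exact_mod_cast hc.1)
    (by rw [cr_toC, cr_toC]; exact_mod_cast hc.2)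
  have hp : p ∈ sg s ∩ sg t := by
    change p ∈ segment ℝ _ _ ∩ segment ℝ _ _
    rw [hi]; rfl
  refine ⟨p, φ, hφ, ?_, ?_⟩
  · ext q
    constructor
    · rintro ⟨⟨s', hs', hq⟩, ⟨t', ht', hq'⟩⟩
      rcases hall s' hs' t' ht' with ⟨rfl, rfl⟩ | h
      · rw [← hi]; exact ⟨hq, hq'⟩
      · exact absurd hq' (Set.disjoint_left.mp (disj_sound h) hq)
    · rintro rfl
      exact ⟨⟨s, hs, hp.1⟩, ⟨t, ht, hp.2⟩⟩
  · have e1 := eventually_arcSet hs (p := p) fun s' hs' => by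
      rcases hall s' hs' t ht with ⟨h, _⟩ | h
      · exact Or.inl h
      · exact Or.inr fun hq => Set.disjoint_left.mp (disj_sound h) hq hp.2
    have e2 := eventually_arcSet ht (p := p) fun t' ht' => by
      rcases hall s hs t' ht' with ⟨_, h⟩ | h
      · exact Or.inl h
      · exact Or.inr fun hq => Set.disjoint_left.mp (disj_sound h) hp.1 hq
    filter_upwards [e1, e2, hev] with q q1 q2 q3
    rw [q1, q2]
    exact q3

theorem desc_sound {E : ED} (h : desc E = true) :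
    IsGraph (arcSet E) (toC E.p3).im (toC E.p0).im := by
  simp only [desc, Bool.and_eq_true, decide_eq_true_eq] at h
  obtain ⟨⟨h1, h2⟩, h3⟩ := h
  have g1 : (toC E.p1).im < (toC E.p0).im := by simp only [toC]; exact_mod_cast h1
  have g2 : (toC E.p2).im < (toC E.p1).im := by simp only [toC]; exact_mod_cast h2
  have g3 : (toC E.p3).im < (toC E.p2).im := by simp only [toC]; exact_mod_cast h3
  rw [arcSet_eq]
  refine (isGraph_segment g1).union
    ((isGraph_segment g2).union (isGraph_segment g3) g3.le g2.le (right_mem_segment _ _ _)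
      (left_mem_segment _ _ _) rfl) (g3.trans g2).le g1.le (right_mem_segment _ _ _)
      (Or.inl (left_mem_segment _ _ _)) rfl

theorem sideL_sound {E : ED} {w : ℤ × ℤ} (h : sideL E w = true) :
    ∃ p ∈ arcSet E, p.im = (toC w).im ∧ (toC w).re < p.re := by
  simp only [sideL, List.any_eq_true, Bool.and_eq_true, decide_eq_true_eq] at h
  obtain ⟨s, hs, ⟨⟨h1, h2⟩, h3⟩, h4⟩ := h
  have g1 : (toC s.2).im < (toC s.1).im := by simp only [toC]; exact_mod_cast h1
  obtain ⟨p, hp, e1, e2⟩ := exists_at_height (w := toC w) g1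
    (by simp only [toC]; exact_mod_cast h2) (by simp only [toC]; exact_mod_cast h3)
  refine ⟨p, ⟨s, hs, hp⟩, e1, ?_⟩
  rw [cr_toC] at e2
  have : ((crz s.1 s.2 w : ℤ) : ℝ) < 0 := by exact_mod_cast h4
  nlinarith

theorem sideR_sound {E : ED} {w : ℤ × ℤ} (h : sideR E w = true) :
    ∃ p ∈ arcSet E, p.im = (toC w).im ∧ p.re < (toC w).re := by
  simp only [sideR, List.any_eq_true, Bool.and_eq_true, decide_eq_true_eq] at h
  obtain ⟨s, hs, ⟨⟨h1, h2⟩, h3⟩, h4⟩ := h
  have g1 : (toC s.2).im < (toC s.1).im := by simp only [toC]; exact_mod_cast h1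
  obtain ⟨p, hp, e1, e2⟩ := exists_at_height (w := toC w) g1
    (by simp only [toC]; exact_mod_cast h2) (by simp only [toC]; exact_mod_cast h3)
  refine ⟨p, ⟨s, hs, hp⟩, e1, ?_⟩
  rw [cr_toC] at e2
  have : (0 : ℝ) < ((crz s.1 s.2 w : ℤ) : ℝ) := by exact_mod_cast h4
  nlinarith

theorem p0_mem (E : ED) : toC E.p0 ∈ arcSet E := by
  rw [arcSet_eq]; exact Or.inl (left_mem_segment _ _ _)

theorem p3_mem (E : ED) : toC E.p3 ∈ arcSet E := by
  rw [arcSet_eq]; exact Or.inr (Or.inr (right_mem_segment _ _ _))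

theorem parOK_sound {E F : ED} (hE : arcOK E = true) (hF : arcOK F = true)
    (hn : noCross E F = true) (h : parOK E F = true) :
    ∀ q ∉ arcSet E ∪ arcSet F, ∃ w < 14,
      toC (pz w) ∈ connectedComponentIn (arcSet E ∪ arcSet F)ᶜ q := by
  simp only [parOK, Bool.and_eq_true, decide_eq_true_eq, List.any_eq_true, List.mem_range,
    Bool.or_eq_true] at h
  obtain ⟨⟨⟨⟨⟨h1, h2⟩, h3⟩, h4⟩, u, hu, hu'⟩, v, hv, hv'⟩ := h
  obtain ⟨_, _, _, e0, e3, _⟩ := arcOK_sound hE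
  obtain ⟨_, _, _, f0, f3, _⟩ := arcOK_sound hF
  have p0 : F.p0 = E.p0 := by rw [e0, f0, h1]
  have p3 : F.p3 = E.p3 := by rw [e3, f3, h2]
  have gF := desc_sound h4
  rw [p0, p3] at gF
  intro q hq
  have := lens (desc_sound h3) gF ⟨_, ⟨p0_mem E, p0 ▸ p0_mem F⟩, rfl⟩
    ⟨_, ⟨p3_mem E, p3 ▸ p3_mem F⟩, rfl⟩
    (fun p hp => by
      rcases noCross_sound hn hp.1 hp.2 with rfl | rfl
      · exact Or.inr rfl
      · exact Or.inl rfl) (u := toC (pz u)) (v := toC (pz v))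
    (by
      rcases hu' with ⟨a, b⟩ | ⟨a, b⟩
      · obtain ⟨p, hp, a1, a2⟩ := sideR_sound a
        obtain ⟨p', hp', b1, b2⟩ := sideL_sound b
        exact ⟨p, hp, p', hp', a1, b1, Or.inl ⟨a2, b2⟩⟩
      · obtain ⟨p, hp, a1, a2⟩ := sideL_sound a
        obtain ⟨p', hp', b1, b2⟩ := sideR_sound b
        exact ⟨p, hp, p', hp', a1, b1, Or.inr ⟨b2, a2⟩⟩)
    (by
      rcases hv' with ⟨a, b⟩ | ⟨a, b⟩
      · obtain ⟨p, hp, a1, a2⟩ := sideL_sound a
        obtain ⟨p', hp', b1, b2⟩ := sideL_sound b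
        exact ⟨p, hp, p', hp', a1, b1, Or.inl ⟨a2, b2⟩⟩
      · obtain ⟨p, hp, a1, a2⟩ := sideR_sound a
        obtain ⟨p', hp', b1, b2⟩ := sideR_sound b
        exact ⟨p, hp, p', hp', a1, b1, Or.inr ⟨a2, b2⟩⟩) q hq
  rcases this with h | h
  · exact ⟨u, hu, h⟩
  · exact ⟨v, hv, h⟩

theorem forceNat_eq (n : ℕ) (k : ℕ → Bool) : forceNat n k = k n := by
  cases n <;> rfl

theorem forceList_eq (l : List ℕ) (k : List ℕ → Bool) : forceList l k = k l := by
  induction l generalizing k with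
  | nil => rfl
  | cons a l ih => rw [forceList, forceNat_eq, ih]

/-- The invariant of the search. -/
def Inv (S : ℕ → Prop) (L X : ℕ) (lab : List ℕ) : Prop :=
  (∀ y, L.testBit y = true → S y) ∧ (∀ y, X.testBit y = true → ¬ S y) ∧ lab.length = 14 ∧
    ∀ c : ℕ → Prop, (∀ y, L.testBit y = true → (c (ed y).u ↔ c (ed y).v)) →
      ∀ a < 14, ∀ b < 14, lab.getD a 0 = lab.getD b 0 → (c a ↔ c b)

theorem testBit_or_pow {L x y : ℕ} (h : (L ||| 2 ^ x).testBit y = true) :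
    L.testBit y = true ∨ y = x := by
  rw [Nat.testBit_or, Bool.or_eq_true, Nat.testBit_two_pow] at h
  rcases h with h | h
  · exact Or.inl h
  · exact Or.inr (by simpa [eq_comm] using h)

theorem br_sound {S : ℕ → Prop}
    (hS : ∀ x, S x → ∃ c : ℕ → Prop, ¬ (c (ed x).u ↔ c (ed x).v) ∧
      ∀ y, S y → y ≠ x → (c (ed y).u ↔ c (ed y).v))
    (k : ℕ → ℕ → List ℕ → Bool) (hk : ∀ L X lab, Inv S L X lab → k L X lab = true → False)
    (L : ℕ) (lab : List ℕ) (cl : List (ℕ × ℕ × ℕ))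
    (hcl : ∀ t ∈ cl, t = tri t.1 ∧ (ed t.1).u < 14 ∧ (ed t.1).v < 14 ∧ L.testBit t.1 = false) :
    ∀ X, Inv S L X lab → br k L lab cl X = true → ∀ t ∈ cl, ¬ S t.1 := by
  induction cl with
  | nil => intro X _ _ t ht; simp at ht
  | cons t ts ih =>
    intro X hinv h
    simp only [br, forceNat_eq, forceList_eq, Bool.and_eq_true, Bool.or_eq_true, beq_iff_eq] at h
    obtain ⟨ht, hu, hv, hL⟩ := hcl t (List.mem_cons_self ..)
    have e1 : t.2.1 = (ed t.1).u := by rw [ht]; rfl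
    have e2 : t.2.2 = (ed t.1).v := by rw [ht]; rfl
    rw [e1, e2] at h
    obtain ⟨i1, i2, i3, i4⟩ := hinv
    have hnot : ¬ S t.1 := by
      intro hSt
      rcases h.1 with h1 | h1 | h1
      · exact i2 _ h1 hSt
      · obtain ⟨c, hc1, hc2⟩ := hS _ hSt
        refine hc1 (i4 c (fun y hy => hc2 y (i1 y hy) ?_) _ hu _ hv h1)
        rintro rfl
        rw [hL] at hy
        exact Bool.false_ne_true hy
      · refine hk _ _ _ ⟨?_, i2, by simpa using i3, ?_⟩ h1
        · intro y hy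
          rcases testBit_or_pow hy with hy | rfl
          · exact i1 y hy
          · exact hSt
        · intro c hc a ha b hb hab
          have hc' : ∀ y, L.testBit y = true → (c (ed y).u ↔ c (ed y).v) :=
            fun y hy => hc y (by rw [Nat.testBit_or, hy, Bool.true_or])
          have huv : c (ed t.1).u ↔ c (ed t.1).v :=
            hc _ (by rw [Nat.testBit_or, Nat.testBit_two_pow_self, Bool.or_true])
          have gm : ∀ a < 14, (lab.map fun l => if l = lab.getD (ed t.1).v 0 then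
              lab.getD (ed t.1).u 0 else l).getD a 0 =
              if lab.getD a 0 = lab.getD (ed t.1).v 0 then lab.getD (ed t.1).u 0
                else lab.getD a 0 := by
            intro a ha
            rw [List.getD_eq_getElem _ _ (by simpa [i3] using ha),
              List.getD_eq_getElem lab _ (n := a) (by omega), List.getElem_map]
          rw [gm a ha, gm b hb] at hab
          split_ifs at hab with h2 h3 h3
          · exact i4 c hc' a ha b hb (h2.trans h3.symm)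
          · exact (i4 c hc' a ha _ hv h2).trans (huv.symm.trans (i4 c hc' _ hu b hb hab))
          · exact (i4 c hc' a ha _ hu hab).trans (huv.trans (i4 c hc' _ hv b hb h3.symm))
          · exact i4 c hc' a ha b hb hab
    intro t' ht'
    rcases List.mem_cons.mp ht' with rfl | ht'
    · exact hnot
    · refine ih (fun t ht => hcl t (List.mem_cons_of_mem _ ht)) _ ⟨i1, ?_, i3, i4⟩ h.2 t' ht'
      intro y hy
      rcases testBit_or_pow hy with hy | rfl
      · exact i2 y hy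
      · exact hnot

theorem go_sound {S : ℕ → Prop}
    (hS : ∀ x, S x → ∃ c : ℕ → Prop, ¬ (c (ed x).u ↔ c (ed x).v) ∧
      ∀ y, S y → y ≠ x → (c (ed y).u ↔ c (ed y).v))
    (cls : List (List (ℕ × ℕ × ℕ)))
    (hcls : ∀ cl ∈ cls, (∀ t ∈ cl, t = tri t.1 ∧ (ed t.1).u < 14 ∧ (ed t.1).v < 14) ∧
      ∃ t ∈ cl, S t.1) :
    ∀ L X lab, Inv S L X lab → go cls L X lab = true → False := by
  induction cls with
  | nil => intro L X lab _ h; simp [go] at h
  | cons cl cls ih =>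
    intro L X lab hinv h
    have ih' := ih fun cl' h' => hcls cl' (List.mem_cons_of_mem _ h')
    rw [go] at h
    split_ifs at h with h1
    · exact ih' L X lab hinv h
    · obtain ⟨h2, t, ht, hSt⟩ := hcls cl (List.mem_cons_self ..)
      refine br_sound hS (go cls) ih' L lab cl (fun t ht => ?_) X hinv h t ht hSt
      obtain ⟨a, b, c⟩ := h2 t ht
      refine ⟨a, b, c, ?_⟩
      by_contra hne
      exact h1 (List.any_eq_true.mpr ⟨t, ht, by simpa using hne⟩)

theorem inv_init (S : ℕ → Prop) : Inv S 0 0 (List.range 14) := by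
  refine ⟨by simp, by simp, by simp, ?_⟩
  intro c _ a ha b hb hab
  rw [List.getD_eq_getElem _ _ (by simpa using ha), List.getD_eq_getElem _ _ (by simpa using hb),
    List.getElem_range, List.getElem_range] at hab
  rw [hab]

end Pool.Agent.Lib.MP_d99f1b_co
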